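import Mathlib

/-!
Clifford algebra of a negative definite real inner product space: basic relations, the
super centre lemma, and products of orthonormal lists.
-/

namespace Pool.Agent.Q8.SPN

open CliffordAlgebra

variable (E : Type*) [NormedAddCommGroup E] [InnerProductSpace ℝ E]

/-- The negative definite quadratic form `v ↦ -⟨v, v⟩`. -/
noncomputable def nq : QuadraticForm ℝ E :=
  -(LinearMap.BilinMap.toQuadraticMap (innerₗ E))

/-- The Clifford algebra with `v * v = -⟨v, v⟩`. -/
abbrev Cl : Type _ := CliffordAlgebra (nq E)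

variable {E}

lemma nq_apply (v : E) : nq E v = -(inner ℝ v v) := by
  simp [nq]

lemma polar_nq (v w : E) : QuadraticMap.polar (nq E) v w = -(2 * inner ℝ v w) := by
  simp only [QuadraticMap.polar, nq_apply, inner_add_left, inner_add_right]
  rw [real_inner_comm v w]
  ring

/-- inclusion of vectors -/
noncomputable abbrev io (v : E) : Cl E := ι (nq E) v

lemma io_sq (v : E) : io v * io v = algebraMap ℝ (Cl E) (-(inner ℝ v v)) := by
  rw [io, ι_sq_scalar, nq_apply]

lemma io_sq_unit {v : E} (hv : ‖v‖ = 1) : io v * io v = -1 := by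
  rw [io_sq, real_inner_self_eq_norm_sq, hv]
  simp

lemma io_swap (v w : E) :
    io v * io w = algebraMap ℝ (Cl E) (-(2 * inner ℝ v w)) - io w * io v := by
  have h := ι_mul_ι_add_swap (Q := nq E) v w
  rw [polar_nq] at h
  rw [io, io, ← h]
  abel

lemma io_anti {v w : E} (h : inner ℝ v w = 0) : io v * io w = -(io w * io v) := by
  rw [io_swap, h]; simp

instance : Nontrivial (Cl E) := by
  haveI : Invertible (2 : ℝ) := invertibleOfNonzero two_ne_zero
  infer_instance

lemma alg_inj : Function.Injective (algebraMap ℝ (Cl E)) := (algebraMap ℝ (Cl E)).injective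

lemma io_inj : Function.Injective (io : E → Cl E) := by
  intro v w h
  have h0 : io (v - w) = 0 := by
    show ι (nq E) (v - w) = 0
    rw [map_sub]; exact sub_eq_zero.mpr h
  have h1 : ∀ d : Module.Dual ℝ E, d (v - w) = 0 := by
    intro d
    have := contractLeft_ι (Q := nq E) d (v - w)
    rw [show ι (nq E) (v - w) = 0 from h0, map_zero] at this
    exact (alg_inj (E := E) (by rw [← this, map_zero])) 
  have h2 := h1 (innerₗ E (v - w))
  have h3 : inner ℝ (v - w) (v - w) = (0 : ℝ) := h2
  exact sub_eq_zero.mp (inner_self_eq_zero.mp h3)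

/-- reflection formula: `w v = -(v - 2⟨w,v⟩ w) w`. -/
lemma io_refl {w : E} (hw : ‖w‖ = 1) (v : E) :
    io w * io v = -(io (v - (2 * inner ℝ w v) • w) * io w) := by
  have h1 : io (v - (2 * inner ℝ w v) • w) = io v - (2 * inner ℝ w v) • io w := by
    show ι (nq E) _ = _
    rw [map_sub, map_smul]
  rw [h1, sub_mul, smul_mul_assoc, io_sq_unit hw, io_swap, Algebra.algebraMap_eq_smul_one]
  simp only [smul_neg, neg_smul]
  abel

/-- product of a list of vectors -/
noncomputable def lp (l : List E) : Cl E := (l.map (ι (nq E))).prod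

@[simp] lemma lp_nil : lp ([] : List E) = 1 := rfl
@[simp] lemma lp_cons (v : E) (l : List E) : lp (v :: l) = io v * lp l := by simp [lp, io]
lemma lp_append (l l' : List E) : lp (l ++ l') = lp l * lp l' := by simp [lp]

/-- conjugation by a product of unit vectors acts linearly on vectors, up to sign. -/
lemma exists_ad (l : List E) (hl : ∀ v ∈ l, ‖v‖ = 1) :
    ∃ R : E →ₗ[ℝ] E, ∀ v, lp l * io v = (-1 : Cl E) ^ l.length * (io (R v) * lp l) := by
  induction l with
  | nil => exact ⟨LinearMap.id, fun v => by simp⟩
  | cons w l ih =>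
    obtain ⟨R, hR⟩ := ih (fun v hv => hl v (List.mem_cons_of_mem _ hv))
    have hw : ‖w‖ = 1 := hl w (List.mem_cons_self ..)
    refine ⟨R - (LinearMap.toSpanSingleton ℝ E w).comp ((2 : ℝ) • ((innerₗ E w).comp R)), ?_⟩
    intro v
    have h1 : (R - (LinearMap.toSpanSingleton ℝ E w).comp ((2 : ℝ) • ((innerₗ E w).comp R))) v
        = R v - (2 * inner ℝ w (R v)) • w := by
      simp [LinearMap.toSpanSingleton_apply]
    rw [h1, lp_cons, mul_assoc, hR, List.length_cons]
    have h2 : io w * ((-1 : Cl E) ^ l.length * (io (R v) * lp l))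
        = (-1 : Cl E) ^ l.length * (io w * io (R v) * lp l) := by
      rw [← mul_assoc, ((Commute.neg_one_right (io w)).pow_right l.length).eq]
      simp only [mul_assoc]
    rw [h2, io_refl hw, pow_succ]
    simp only [mul_assoc, neg_mul, mul_neg, one_mul, mul_one]

lemma involute_lp (l : List E) : involute (lp l) = (-1 : Cl E) ^ l.length * lp l := by
  induction l with
  | nil => simp
  | cons w l ih =>
    rw [lp_cons, map_mul, ih, involute_ι, List.length_cons]
    have h2 : (-io w) * ((-1 : Cl E) ^ l.length * lp l)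
        = (-1 : Cl E) ^ l.length * ((-io w) * lp l) := by
      rw [← mul_assoc, ((Commute.neg_one_right (-io w)).pow_right l.length).eq]
      simp only [mul_assoc]
    rw [h2, pow_succ]
    simp only [mul_assoc, neg_mul, one_mul]

lemma lp_mul_lp_reverse (l : List E) (hl : ∀ v ∈ l, ‖v‖ = 1) :
    lp l * lp (l.reverse.map (fun v => -v)) = 1 := by
  induction l with
  | nil => simp
  | cons w l ih =>
    have hw : ‖w‖ = 1 := hl w (List.mem_cons_self ..)
    have ih' := ih (fun v hv => hl v (List.mem_cons_of_mem _ hv))
    rw [List.reverse_cons, List.map_append, lp_append, lp_cons]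
    have h1 : lp (List.map (fun v : E => -v) [w]) = -io w := by
      simp [lp]
    rw [h1]
    calc io w * lp l * (lp (List.map (fun v => -v) l.reverse) * -io w)
        = io w * (lp l * lp (List.map (fun v => -v) l.reverse)) * -io w := by
          simp only [mul_assoc]
      _ = -(io w * io w) := by rw [ih']; simp
      _ = 1 := by rw [io_sq_unit hw]; simp

lemma lp_reverse_mul_lp (l : List E) (hl : ∀ v ∈ l, ‖v‖ = 1) :
    lp (l.reverse.map (fun v => -v)) * lp l = 1 := by
  have h := lp_mul_lp_reverse (l.reverse.map (fun v => -v)) (by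
    intro v hv
    simp only [List.mem_map, List.mem_reverse] at hv
    obtain ⟨w, hw, rfl⟩ := hv
    rw [norm_neg]; exact hl w hw)
  have h2 : ((l.reverse.map (fun v => -v)).reverse.map (fun v => -v)) = l := by
    simp [List.map_reverse, List.map_map, Function.comp_def]
  rwa [h2] at h

end Pool.Agent.Q8.SPN
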