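import Pool.Agent.Q8.SPN.Basic

/-!
Elements which super-commute with all vectors are scalars.
-/

namespace Pool.Agent.Q8.SPN

open CliffordAlgebra

variable {E : Type*} [NormedAddCommGroup E] [InnerProductSpace ℝ E]
variable {ι' : Type*} [Fintype ι'] [DecidableEq ι'] (b : OrthonormalBasis ι' ℝ E)

/-- the subalgebra generated by the basis vectors in `S` -/
noncomputable def sub (S : Finset ι') : Subalgebra ℝ (Cl E) :=
  Algebra.adjoin ℝ {y | ∃ i ∈ S, y = io (b i)}

lemma io_mem_sub {S : Finset ι'} {i : ι'} (hi : i ∈ S) : io (b i) ∈ sub b S :=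
  Algebra.subset_adjoin ⟨i, hi, rfl⟩

lemma sub_mono {S T : Finset ι'} (h : S ⊆ T) : sub b S ≤ sub b T := by
  apply Algebra.adjoin_mono
  rintro y ⟨i, hi, rfl⟩
  exact ⟨i, h hi, rfl⟩

lemma sub_univ : sub b Finset.univ = ⊤ := by
  rw [eq_top_iff, ← CliffordAlgebra.adjoin_range_ι (Q := nq E)]
  apply Algebra.adjoin_le
  rintro _ ⟨v, rfl⟩
  rw [← b.sum_repr v, map_sum]
  apply Subalgebra.sum_mem
  intro i _
  rw [map_smul]
  exact Subalgebra.smul_mem _ (io_mem_sub b (Finset.mem_univ i)) _

lemma sub_empty {z : Cl E} (h : z ∈ sub b ∅) : ∃ c : ℝ, z = algebraMap ℝ _ c := by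
  have h1 : sub b ∅ = ⊥ := by
    rw [sub, eq_bot_iff]
    apply Algebra.adjoin_le
    rintro y ⟨i, hi, _⟩
    simp at hi
  rw [h1, Algebra.mem_bot] at h
  obtain ⟨c, hc⟩ := h
  exact ⟨c, hc.symm⟩

lemma involute_mem {S : Finset ι'} {p : Cl E} (hp : p ∈ sub b S) : involute p ∈ sub b S := by
  induction hp using Algebra.adjoin_induction with
  | mem x hx =>
    obtain ⟨i, hi, rfl⟩ := hx
    rw [involute_ι]
    exact neg_mem (io_mem_sub b hi)
  | algebraMap r => simp only [AlgHom.commutes]; exact Subalgebra.algebraMap_mem _ r
  | add x y _ _ hx hy => rw [map_add]; exact add_mem hx hy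
  | mul x y _ _ hx hy => rw [map_mul]; exact mul_mem hx hy

lemma mul_io_of_mem {S : Finset ι'} {i : ι'} (hi : i ∉ S) {p : Cl E} (hp : p ∈ sub b S) :
    p * io (b i) = io (b i) * involute p := by
  induction hp using Algebra.adjoin_induction with
  | mem x hx =>
    obtain ⟨j, hj, rfl⟩ := hx
    have hne : j ≠ i := fun h => hi (h ▸ hj)
    rw [involute_ι, mul_neg]
    exact io_anti (b.orthonormal.2 hne)
  | algebraMap r =>
    simp only [AlgHom.commutes]
    exact Algebra.commutes _ _
  | add x y _ _ hx hy => rw [map_add, add_mul, mul_add, hx, hy]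
  | mul x y _ _ hx hy => rw [map_mul, mul_assoc, hy, ← mul_assoc, hx, mul_assoc]

lemma split {S : Finset ι'} {i : ι'} (hi : i ∉ S) {z : Cl E} (hz : z ∈ sub b (insert i S)) :
    ∃ p ∈ sub b S, ∃ q ∈ sub b S, z = p + io (b i) * q := by
  induction hz using Algebra.adjoin_induction with
  | mem x hx =>
    obtain ⟨j, hj, rfl⟩ := hx
    rcases Finset.mem_insert.mp hj with rfl | hj
    · exact ⟨0, zero_mem _, 1, one_mem _, by simp⟩
    · exact ⟨_, io_mem_sub b hj, 0, zero_mem _, by simp⟩
  | algebraMap r => exact ⟨_, Subalgebra.algebraMap_mem _ r, 0, zero_mem _, by simp⟩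
  | add x y _ _ hx hy =>
    obtain ⟨p, hp, q, hq, rfl⟩ := hx
    obtain ⟨p', hp', q', hq', rfl⟩ := hy
    exact ⟨p + p', add_mem hp hp', q + q', add_mem hq hq', by rw [mul_add]; abel⟩
  | mul x y _ _ hx hy =>
    obtain ⟨p, hp, q, hq, rfl⟩ := hx
    obtain ⟨p', hp', q', hq', rfl⟩ := hy
    refine ⟨p * p' - involute q * q', sub_mem (mul_mem hp hp')
      (mul_mem (involute_mem b hq) hq'), involute p * q' + q * p',
      add_mem (mul_mem (involute_mem b hp) hq') (mul_mem hq hp'), ?_⟩
    have e1 : p * (io (b i) * q') = io (b i) * (involute p * q') := by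
      rw [← mul_assoc, mul_io_of_mem b hi hp, mul_assoc]
    have e2 : io (b i) * q * (io (b i) * q') = -(involute q * q') := by
      calc io (b i) * q * (io (b i) * q') = io (b i) * (q * io (b i)) * q' := by
            simp only [mul_assoc]
        _ = (io (b i) * io (b i)) * (involute q * q') := by
            rw [mul_io_of_mem b hi hq]; simp only [mul_assoc]
        _ = _ := by rw [io_sq_unit (b.orthonormal.1 i)]; simp
    rw [add_mul, mul_add, mul_add, e1, e2, mul_add]
    simp only [mul_assoc]
    abel

include b in
/-- An element super-commuting with all vectors is a scalar. -/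
theorem super_center {z : Cl E} (hz : ∀ v : E, io v * involute z = z * io v) :
    ∃ c : ℝ, z = algebraMap ℝ _ c := by
  have key : ∀ T : Finset ι', z ∈ sub b (Finset.univ \ T) := by
    intro T
    induction T using Finset.induction_on with
    | empty => rw [Finset.sdiff_empty, sub_univ]; trivial
    | insert i T hi ih =>
      have hS : insert i (Finset.univ \ insert i T) = Finset.univ \ T := by
        ext j
        simp only [Finset.mem_insert, Finset.mem_sdiff, Finset.mem_univ, true_and]
        constructor
        · rintro (rfl | h)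
          · exact hi
          · exact fun hj => h (Or.inr hj)
        · intro h
          by_cases hji : j = i
          · exact Or.inl hji
          · exact Or.inr (fun h' => h'.elim hji h)
      have hiS : i ∉ Finset.univ \ insert i T := by simp
      rw [← hS] at ih
      obtain ⟨p, hp, q, hq, hpq⟩ := split b hiS ih
      have h1 := hz (b i)
      rw [hpq, map_add, map_mul, involute_ι, mul_add, add_mul,
        mul_io_of_mem b hiS hp] at h1
      have h2 : io (b i) * (-io (b i) * involute q) = involute q := by
        rw [← mul_assoc, mul_neg, io_sq_unit (b.orthonormal.1 i)]; simp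
      have h3 : io (b i) * q * io (b i) = -involute q := by
        rw [mul_assoc, mul_io_of_mem b hiS hq, ← mul_assoc, io_sq_unit (b.orthonormal.1 i)]
        simp
      rw [h2, h3] at h1
      have h4 : involute q = -involute q := add_left_cancel h1
      have h5 : (2 : ℝ) • involute q = 0 := by
        rw [two_smul]; nth_rewrite 2 [h4]; abel
      have h6 : involute q = 0 := by
        rcases smul_eq_zero.mp h5 with h | h
        · norm_num at h
        · exact h
      have h7 : q = 0 := by
        have := congrArg involute h6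
        rwa [involute_involute, map_zero] at this
      rw [hpq, h7, mul_zero, add_zero]
      exact hp
  have h := key Finset.univ
  rw [Finset.sdiff_self] at h
  exact sub_empty b h

end Pool.Agent.Q8.SPN
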