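import Pool.Agent.Q8.SPN.Invol

/-!
The compact spinor groups `Spin(n)`, the normal forms, and strongly reversible elements.
-/

namespace Pool.Agent.Q8.SPN

open CliffordAlgebra

/-- The Clifford algebra `C_n` of `ℝ^n` with `v * v = -‖v‖²`. -/
abbrev Cn (n : ℕ) : Type := Cl (EuclideanSpace ℝ (Fin n))

/-- products of an even number of unit vectors -/
def IsEvenProduct {n : ℕ} (u : (Cn n)ˣ) : Prop :=
  ∃ l : List (EuclideanSpace ℝ (Fin n)), Even l.length ∧ (∀ v ∈ l, ‖v‖ = 1) ∧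
    (u : Cn n) = (l.map (ι (nq _))).prod

lemma isEvenProduct_one (n : ℕ) : IsEvenProduct (1 : (Cn n)ˣ) :=
  ⟨[], by simp, by simp, by simp⟩

lemma IsEvenProduct.mul {n : ℕ} {a b : (Cn n)ˣ} (ha : IsEvenProduct a)
    (hb : IsEvenProduct b) : IsEvenProduct (a * b) := by
  obtain ⟨l, hl, hl1, hl2⟩ := ha
  obtain ⟨l', hl', hl1', hl2'⟩ := hb
  refine ⟨l ++ l', ?_, ?_, ?_⟩
  · rw [List.length_append]; exact hl.add hl'
  · intro v hv
    rcases List.mem_append.mp hv with h | h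
    · exact hl1 v h
    · exact hl1' v h
  · rw [Units.val_mul, hl2, hl2', List.map_append, List.prod_append]

lemma IsEvenProduct.inv {n : ℕ} {a : (Cn n)ˣ} (ha : IsEvenProduct a) :
    IsEvenProduct a⁻¹ := by
  obtain ⟨l, hl, hl1, hl2⟩ := ha
  refine ⟨l.reverse.map (fun v => -v), ?_, ?_, ?_⟩
  · simpa using hl
  · intro v hv
    simp only [List.mem_map, List.mem_reverse] at hv
    obtain ⟨w, hw, rfl⟩ := hv
    rw [norm_neg]; exact hl1 w hw
  · have h := lp_mul_lp_reverse l hl1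
    have h2 : (a : Cl (EuclideanSpace ℝ (Fin n))) = lp l := hl2
    rw [← h2] at h
    exact Units.inv_eq_of_mul_eq_one_right h

/-- `Spin(n)`: the invertible elements of the Clifford algebra `C_n` that are products of an
even number of unit vectors. -/
def spin (n : ℕ) : Subgroup (Cn n)ˣ where
  carrier := {u | IsEvenProduct u}
  one_mem' := isEvenProduct_one n
  mul_mem' := IsEvenProduct.mul
  inv_mem' := IsEvenProduct.inv

/-- The generator `e_i` of `C_n` (indices start at zero). -/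
noncomputable def gen (n : ℕ) (i : Fin n) : Cn n :=
  ι (nq _) (EuclideanSpace.single i 1)

lemma lt_even {n : ℕ} (j : Fin (n / 2)) : 2 * (j : ℕ) < n := by omega

lemma lt_odd {n : ℕ} (j : Fin (n / 2)) : 2 * (j : ℕ) + 1 < n := by omega

/-- The `j`-th factor `cos θ_j + sin θ_j e_{2j} e_{2j+1}` (indices start at zero). -/
noncomputable def fac {n : ℕ} (θ : Fin (n / 2) → ℝ) (j : Fin (n / 2)) : Cn n :=
  algebraMap ℝ _ (Real.cos (θ j)) +
      Real.sin (θ j) • (gen n ⟨2 * j, lt_even j⟩ * gen n ⟨2 * j + 1, lt_odd j⟩)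

/-- The normal form `∏_j (cos θ_j + sin θ_j e_{2j} e_{2j+1})`, `0 ≤ j < ⌊n/2⌋`
(indices start at zero; the product is taken in increasing order of `j`). -/
noncomputable def normalForm (n : ℕ) (θ : Fin (n / 2) → ℝ) : Cn n :=
  (List.ofFn (fac θ)).prod

/-- `x` is strongly reversible in the group `G`: it is conjugated to its inverse by an
element `g` with `g ^ 2 = 1`. -/
def StronglyReversible {G : Type*} [Group G] (x : G) : Prop :=
  ∃ g : G, g ^ 2 = 1 ∧ g * x * g⁻¹ = x⁻¹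

/-- The criterion: `a` is the number of `j` with `sin θ_j = 0` and `b` the number of `j`
with `cos θ_j = 0`. -/
def Criterion (n a b : ℕ) : Prop :=
  (n % 8 = 0 ∨ n % 8 = 1 ∨ n % 8 = 7) ∨
  ((n % 8 = 3 ∨ n % 8 = 5) ∧ (1 ≤ a ∨ 2 ≤ b)) ∨
  ((n % 8 = 2 ∨ n % 8 = 6) ∧ 1 ≤ a) ∨
  (n % 8 = 4 ∧ (2 ≤ a ∨ 2 ≤ b))

/-- the number of `j` with `sin θ_j = 0` -/
noncomputable def numSinZero {m : ℕ} (θ : Fin m → ℝ) : ℕ :=
  Nat.card {j : Fin m // Real.sin (θ j) = 0}

/-- the number of `j` with `cos θ_j = 0` -/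
noncomputable def numCosZero {m : ℕ} (θ : Fin m → ℝ) : ℕ :=
  Nat.card {j : Fin m // Real.cos (θ j) = 0}

end Pool.Agent.Q8.SPN
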