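import Pool.Agent.Q8.SPN.Center

/-!
If an even product `u` of unit vectors satisfies `u * u = 1`, then the dimension of the
`(-1)`-eigenspace of its action on vectors is divisible by four.
-/

namespace Pool.Agent.Q8.SPN

open CliffordAlgebra

variable {E : Type*} [NormedAddCommGroup E] [InnerProductSpace ℝ E]

/-- the sign `(-1)^(k(k+1)/2)`, defined recursively -/
def sg : ℕ → ℤ
  | 0 => 1
  | k + 1 => (-1) ^ (k + 1) * sg k

lemma sg_four (k : ℕ) : sg (k + 4) = sg k := by
  simp only [sg]
  ring_nf
  have h : ((-1 : ℤ) ^ k) ^ 2 = 1 := by rw [← pow_mul, mul_comm, pow_mul]; norm_num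
  have h4 : ((-1 : ℤ) ^ k) ^ 4 = 1 := by
    rw [show (4 : ℕ) = 2 * 2 by norm_num, pow_mul, h]; norm_num
  have h4' : (-1 : ℤ) ^ (k * 4) = 1 := by rw [pow_mul]; exact h4
  rw [h4']; ring

lemma sg_eq (k : ℕ) : sg k = if k % 4 = 0 ∨ k % 4 = 3 then 1 else -1 := by
  induction k using Nat.strong_induction_on with
  | _ k ih =>
    by_cases hk : k < 4
    · interval_cases k <;> simp [sg]
    · obtain ⟨j, rfl⟩ : ∃ j, k = j + 4 := ⟨k - 4, by omega⟩
      rw [sg_four, ih j (by omega)]
      have : (j + 4) % 4 = j % 4 := by omega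
      rw [this]

/-- the reflection sum `v - 2 ∑ ⟨f, v⟩ f` over a list -/
noncomputable def rf : List E → E → E
  | [], v => v
  | f :: l, v => rf l v - (2 * inner ℝ f v) • f

lemma inner_rf {g : E} {l : List E} (h : ∀ f ∈ l, inner ℝ g f = (0 : ℝ)) (v : E) :
    inner ℝ g (rf l v) = inner ℝ g v := by
  induction l with
  | nil => rfl
  | cons f l ih =>
    rw [rf, inner_sub_right, ih (fun f' hf' => h f' (List.mem_cons_of_mem _ hf')),
      inner_smul_right, h f (List.mem_cons_self ..)]
    simp

lemma lp_mul_io {l : List E} (hl : ∀ v ∈ l, ‖v‖ = 1)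
    (ho : l.Pairwise (fun v w => inner ℝ v w = (0 : ℝ))) (v : E) :
    lp l * io v = (-1 : Cl E) ^ l.length * (io (rf l v) * lp l) := by
  induction l with
  | nil => simp [rf]
  | cons w l ih =>
    have hw : ‖w‖ = 1 := hl w (List.mem_cons_self ..)
    rw [List.pairwise_cons] at ho
    rw [lp_cons, mul_assoc, ih (fun v hv => hl v (List.mem_cons_of_mem _ hv)) ho.2,
      List.length_cons]
    have h2 : io w * ((-1 : Cl E) ^ l.length * (io (rf l v) * lp l))
        = (-1 : Cl E) ^ l.length * (io w * io (rf l v) * lp l) := by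
      rw [← mul_assoc, ((Commute.neg_one_right (io w)).pow_right l.length).eq]
      simp only [mul_assoc]
    rw [h2, io_refl hw, pow_succ, inner_rf ho.1, rf]
    simp only [mul_assoc, neg_mul, mul_neg, mul_one]

lemma rf_self_of_orth {g : E} {l : List E} (h : ∀ f ∈ l, inner ℝ g f = (0 : ℝ)) :
    rf l g = g := by
  induction l with
  | nil => rfl
  | cons f l ih =>
    rw [rf, ih (fun f' hf' => h f' (List.mem_cons_of_mem _ hf')),
      real_inner_comm, h f (List.mem_cons_self ..)]
    simp

lemma lp_sq {l : List E} (hl : ∀ v ∈ l, ‖v‖ = 1)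
    (ho : l.Pairwise (fun v w => inner ℝ v w = (0 : ℝ))) :
    lp l * lp l = ((sg l.length : ℤ) : Cl E) := by
  induction l with
  | nil => simp [sg]
  | cons w l ih =>
    have hw : ‖w‖ = 1 := hl w (List.mem_cons_self ..)
    rw [List.pairwise_cons] at ho
    have hl' : ∀ v ∈ l, ‖v‖ = 1 := fun v hv => hl v (List.mem_cons_of_mem _ hv)
    have h1 := lp_mul_io hl' ho.2 w
    rw [rf_self_of_orth ho.1] at h1
    rw [lp_cons]
    calc io w * lp l * (io w * lp l) = io w * (lp l * io w) * lp l := by simp only [mul_assoc]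
      _ = io w * ((-1 : Cl E) ^ l.length * (io w * lp l)) * lp l := by rw [h1]
      _ = (-1 : Cl E) ^ l.length * (io w * (io w * lp l)) * lp l := by
          rw [← mul_assoc (io w) _ (io w * lp l),
            ((Commute.neg_one_right (io w)).pow_right l.length).eq]
          simp only [mul_assoc]
      _ = (-1 : Cl E) ^ l.length * ((io w * io w) * (lp l * lp l)) := by
          simp only [mul_assoc]
      _ = _ := by
          rw [io_sq_unit hw, ih hl' ho.2, List.length_cons, sg]
          push_cast
          rw [pow_succ]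
          simp

lemma int_cast_eq (a : ℤ) : ((a : ℤ) : Cl E) = algebraMap ℝ (Cl E) (a : ℝ) := by
  rw [map_intCast]

section invol

variable [FiniteDimensional ℝ E]

/-- Main structure result for even products `u` of unit vectors with `u * u = 1`. -/
theorem invol_struct {l : List E} (hl : ∀ v ∈ l, ‖v‖ = 1) (hev : Even l.length)
    (hsq : lp l * lp l = 1) {R : E →ₗ[ℝ] E} (hR : ∀ v, lp l * io v = io (R v) * lp l) :
    ∃ (k : ℕ) (f : Fin k → E), 4 ∣ k ∧ (∀ i, ‖f i‖ = 1) ∧
      (∀ v, R v = v - (2 : ℝ) • ∑ i, (inner ℝ (f i) v : ℝ) • f i) ∧ ∀ v, ‖R v‖ = ‖v‖ := by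
  classical
  have hinv : lp (l.reverse.map (fun v => -v)) * lp l = 1 := lp_reverse_mul_lp l hl
  -- R is an isometry
  have hcancel : ∀ {a b : Cl E}, a * lp l = b * lp l → a = b := by
    intro a b h
    have := congrArg (· * lp l) h
    simpa only [mul_assoc, hsq, mul_one] using this
  have hcancel' : ∀ {a b : Cl E}, lp l * a = lp l * b → a = b := by
    intro a b h
    have := congrArg (lp l * ·) h
    simpa only [← mul_assoc, hsq, one_mul] using this
  have hiso1 : ∀ v, inner ℝ (R v) (R v) = (inner ℝ v v : ℝ) := by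
    intro v
    have h1 : io (R v) * io (R v) * lp l = io v * io v * lp l := by
      calc io (R v) * io (R v) * lp l = io (R v) * (io (R v) * lp l) := by rw [mul_assoc]
        _ = (io (R v) * lp l) * io v := by rw [mul_assoc, hR v]
        _ = lp l * (io v * io v) := by rw [← hR v, mul_assoc]
        _ = io v * io v * lp l := by
            rw [io_sq]; exact (Algebra.commutes _ _).symm
    have h2 := hcancel h1
    rw [io_sq, io_sq] at h2
    have h3 := alg_inj h2
    linarith
  have hiso : ∀ v w, inner ℝ (R v) (R w) = (inner ℝ v w : ℝ) := by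
    intro v w
    have h1 := hiso1 (v + w)
    rw [map_add] at h1
    simp only [inner_add_left, inner_add_right, hiso1] at h1
    rw [real_inner_comm (R v) (R w), real_inner_comm v w] at h1
    linarith
  have hRR : ∀ v, R (R v) = v := by
    intro v
    apply io_inj
    apply hcancel
    rw [← hR (R v)]
    apply hcancel'
    rw [← mul_assoc, hsq, one_mul, ← mul_assoc, hR v, mul_assoc, hsq, mul_one]
  -- eigenspace
  let W : Submodule ℝ E := LinearMap.ker (R + LinearMap.id)
  have hW : ∀ w, w ∈ W ↔ R w = -w := by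
    intro w
    simp only [W, LinearMap.mem_ker, LinearMap.add_apply, LinearMap.id_apply]
    exact ⟨fun h => eq_neg_of_add_eq_zero_left h, fun h => by rw [h]; simp⟩
  let fb := stdOrthonormalBasis ℝ W
  set k := Module.finrank ℝ W with hk
  let f : Fin k → E := fun i => (fb i : E)
  have hfn : ∀ i, ‖f i‖ = 1 := fun i => fb.orthonormal.1 i
  have hfo : ∀ i j, i ≠ j → inner ℝ (f i) (f j) = (0 : ℝ) := fun i j hij =>
    fb.orthonormal.2 hij
  have hfR : ∀ i, R (f i) = -(f i) := fun i => (hW _).mp (fb i).2
  have hform : ∀ v, R v = v - (2 : ℝ) • ∑ i, (inner ℝ (f i) v : ℝ) • f i := by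
    intro v
    have hwW : v - R v ∈ W := by
      rw [hW, map_sub, hRR]; abel
    have h1 := fb.sum_repr' ⟨v - R v, hwW⟩
    have h2 : ∑ i, (inner ℝ (f i) (v - R v) : ℝ) • f i = v - R v := by
      have := congrArg (Subtype.val) h1
      simpa using this
    have h3 : ∀ i, (inner ℝ (f i) (v - R v) : ℝ) = 2 * inner ℝ (f i) v := by
      intro i
      rw [inner_sub_right]
      have h4 : inner ℝ (f i) (R v) = (-(inner ℝ (f i) v) : ℝ) := by
        have h5 := hiso (f i) (R v)
        rw [hRR, hfR, inner_neg_left] at h5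
        exact h5.symm
      rw [h4]; ring
    simp only [h3, mul_smul, ← Finset.smul_sum] at h2
    rw [h2]; abel
  -- product of the orthonormal basis
  let L : List E := List.ofFn f
  have hLlen : L.length = k := List.length_ofFn
  have hLn : ∀ v ∈ L, ‖v‖ = 1 := by
    intro v hv
    simp only [L, List.mem_ofFn] at hv
    obtain ⟨i, rfl⟩ := hv
    exact hfn i
  have hLo : L.Pairwise (fun v w => inner ℝ v w = (0 : ℝ)) := by
    simp only [L]
    rw [List.pairwise_ofFn]
    intro i j hij
    exact hfo i j (ne_of_lt hij)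
  have hrf : ∀ (m : ℕ) (f' : Fin m → E) (v : E),
      rf (List.ofFn f') v = v - (2 : ℝ) • ∑ i, (inner ℝ (f' i) v : ℝ) • f' i := by
    intro m
    induction m with
    | zero => intro f' v; simp [rf]
    | succ m ih =>
      intro f' v
      rw [List.ofFn_succ, rf, ih, Fin.sum_univ_succ, smul_add, smul_smul]
      abel
  have hRrf : ∀ v, rf L v = R v := by
    intro v; rw [hform v]; exact hrf k f v
  have hcomm := fun v => lp_mul_io hLn hLo v
  have hLsq := lp_sq hLn hLo
  rw [hLlen] at hLsq
  -- z = u h super-commutes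
  have hz : ∀ v : E, io v * involute (lp l * lp L) = (lp l * lp L) * io v := by
    intro v
    rw [map_mul, involute_lp, involute_lp, hev.neg_one_pow, one_mul, hLlen]
    have e1 : io v * (lp l * ((-1 : Cl E) ^ k * lp L)) = (-1 : Cl E) ^ k * (io v * (lp l * lp L)) := by
      rw [← mul_assoc (lp l), ((Commute.neg_one_right (lp l)).pow_right k).eq, mul_assoc,
        ← mul_assoc (io v), ((Commute.neg_one_right (io v)).pow_right k).eq, mul_assoc]
    have e2 : lp l * lp L * io v = (-1 : Cl E) ^ k * (io v * (lp l * lp L)) := by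
      rw [mul_assoc, hcomm v, hRrf, hLlen, ← mul_assoc (lp l),
        ((Commute.neg_one_right (lp l)).pow_right k).eq, mul_assoc, ← mul_assoc (lp l),
        hR (R v), hRR, mul_assoc]
    rw [e1, e2]
  obtain ⟨c, hc⟩ := super_center (stdOrthonormalBasis ℝ E) hz
  -- c ≠ 0
  have hsgne : (sg k : ℝ) ≠ 0 := by
    rw [sg_eq]; split_ifs <;> norm_num
  have hLc : lp L = algebraMap ℝ _ c * lp l := by
    rw [← hc]
    have : lp l * lp L = lp l * lp L := rfl
    have hcm : algebraMap ℝ (Cl E) c * lp l = lp l * algebraMap ℝ (Cl E) c :=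
      Algebra.commutes _ _
    rw [hc, hcm, ← hc, ← mul_assoc, hsq, one_mul]
  have hcc : (sg k : ℝ) = c * c := by
    apply alg_inj (E := E)
    rw [← int_cast_eq, ← hLsq]
    nth_rewrite 1 [hLc]
    rw [mul_assoc, hc, map_mul]
  have hcne : c ≠ 0 := by
    rintro rfl
    simp at hcc
    exact hsgne (by exact_mod_cast hcc)
  have hpos : 0 < (sg k : ℝ) := by rw [hcc]; exact mul_self_pos.mpr hcne
  have hsg : k % 4 = 0 ∨ k % 4 = 3 := by
    by_contra hcon
    rw [sg_eq, if_neg hcon] at hpos
    norm_num at hpos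
  -- parity
  have hpar : Even k := by
    by_contra hodd
    rw [Nat.not_even_iff_odd] at hodd
    have h1 := congrArg involute hc
    rw [map_mul, involute_lp, involute_lp, hev.neg_one_pow, one_mul, hLlen,
      hodd.neg_one_pow, AlgHom.commutes] at h1
    have h2 : lp l * (-1 * lp L) = -(lp l * lp L) := by simp
    rw [h2, hc, ← map_neg] at h1
    have h3 := alg_inj h1
    apply hcne; linarith
  refine ⟨k, f, ?_, hfn, hform, fun v => ?_⟩
  swap
  · have h := hiso1 v
    rw [real_inner_self_eq_norm_sq, real_inner_self_eq_norm_sq] at h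
    exact (sq_eq_sq₀ (norm_nonneg _) (norm_nonneg _)).mp h
  obtain ⟨j, hj⟩ := hpar
  omega

end invol

end Pool.Agent.Q8.SPN
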