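import Pool.Agent.Q8.SPN.Suf

/-!
The classification over the unfolded definitions.
-/

namespace Pool.Agent.Q8.SPN

open CliffordAlgebra

lemma ext_spin {n : ℕ} {x y : spin n}
    (h : ((x : (Cl (EuclideanSpace ℝ (Fin n)))ˣ) : Cl (EuclideanSpace ℝ (Fin n)))
      = ((y : (Cl (EuclideanSpace ℝ (Fin n)))ˣ) : Cl (EuclideanSpace ℝ (Fin n)))) :
    x = y := Subtype.ext (Units.ext h)

lemma exists_spin {n : ℕ} (l : List (EuclideanSpace ℝ (Fin n))) (hl : Even l.length)
    (hl1 : ∀ v ∈ l, ‖v‖ = 1) :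
    ∃ x : spin n, ((x : (Cl (EuclideanSpace ℝ (Fin n)))ˣ) : Cl (EuclideanSpace ℝ (Fin n)))
      = lp l :=
  ⟨⟨⟨lp l, lp (l.reverse.map (fun v => -v)), lp_mul_lp_reverse l hl1, lp_reverse_mul_lp l hl1⟩,
    ⟨l, hl, hl1, rfl⟩⟩, rfl⟩

lemma exists_fac {n : ℕ} (θ : Fin (n / 2) → ℝ) (j : Fin (n / 2)) :
    ∃ x : spin n, ((x : (Cl (EuclideanSpace ℝ (Fin n)))ˣ) : Cl (EuclideanSpace ℝ (Fin n)))
      = fac θ j := by
  have hne : (⟨2 * j, by omega⟩ : Fin n) ≠ ⟨2 * j + 1, by omega⟩ := by
    intro h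
    have := congrArg Fin.val h
    simp only at this
    omega
  set e := bv n ⟨2 * j, by omega⟩ with he
  set e' := bv n ⟨2 * j + 1, by omega⟩ with he'
  obtain ⟨x, hx⟩ := exists_spin [e, (-Real.cos (θ j)) • e + Real.sin (θ j) • e'] (by simp)
    (by
      intro v hv
      simp only [List.mem_cons, List.not_mem_nil, or_false] at hv
      rcases hv with rfl | rfl
      · simp [he, bv]
      · have h1 : (inner ℝ ((-Real.cos (θ j)) • e + Real.sin (θ j) • e')
            ((-Real.cos (θ j)) • e + Real.sin (θ j) • e') : ℝ) = 1 := by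
          simp only [inner_add_left, inner_add_right, inner_smul_left, inner_smul_right, he, he',
            inner_bv, if_neg hne, if_neg hne.symm, if_true]
          have := Real.cos_sq_add_sin_sq (θ j)
          simp
          linarith
        rw [real_inner_self_eq_norm_sq] at h1
        nlinarith [norm_nonneg ((-Real.cos (θ j)) • e + Real.sin (θ j) • e')])
  refine ⟨x, ?_⟩
  rw [hx, lp_cons, lp_cons, lp_nil, mul_one]
  have h2 : io ((-Real.cos (θ j)) • e + Real.sin (θ j) • e')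
      = (-Real.cos (θ j)) • gen n ⟨2 * j, by omega⟩
        + Real.sin (θ j) • gen n ⟨2 * j + 1, by omega⟩ := by
    show ι (nq _) _ = _
    rw [map_add, map_smul, map_smul]
    rfl
  rw [h2, fac]
  have h3 : io e = gen n ⟨2 * j, by omega⟩ := rfl
  rw [h3, mul_add, mul_smul_comm, mul_smul_comm, gen_sq, Algebra.algebraMap_eq_smul_one]
  congr 1
  simp

lemma exists_normalForm {n : ℕ} (θ : Fin (n / 2) → ℝ) :
    ∃ x : spin n, ((x : (Cl (EuclideanSpace ℝ (Fin n)))ˣ) : Cl (EuclideanSpace ℝ (Fin n)))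
      = normalForm n θ := by
  choose u hu using exists_fac θ
  refine ⟨(List.ofFn u).prod, ?_⟩
  rw [normalForm_eq]
  have h1 := map_list_prod ((Units.coeHom (Cl (EuclideanSpace ℝ (Fin n)))).comp
    (spin n).subtype) (List.ofFn u)
  rw [List.map_ofFn] at h1
  have h2 : (⇑((Units.coeHom (Cl (EuclideanSpace ℝ (Fin n)))).comp (spin n).subtype) ∘ u)
      = fac θ := by
    funext j
    exact hu j
  rw [h2] at h1
  exact h1

/-- Classification of the strongly reversible elements of `Spin(n)`. -/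
theorem classification (n : ℕ) (θ : Fin (n / 2) → ℝ) :
    (∃ x : spin n, ((x : (Cn n)ˣ) : Cn n) = normalForm n θ) ∧
    ∀ x h : spin n, (((h * x * h⁻¹ : spin n) : (Cn n)ˣ) : Cn n) = normalForm n θ →
      (StronglyReversible x ↔ Criterion n (numSinZero θ) (numCosZero θ)) := by
  refine ⟨exists_normalForm θ, ?_⟩
  intro x h hxh
  -- reduce to the normal form itself
  have hconj : StronglyReversible x ↔ StronglyReversible (h * x * h⁻¹) := by
    constructor
    · rintro ⟨g, hg, hgx⟩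
      refine ⟨h * g * h⁻¹, ?_, ?_⟩
      · rw [conj_pow, hg]; group
      · have : h * g * h⁻¹ * (h * x * h⁻¹) * (h * g * h⁻¹)⁻¹ = h * (g * x * g⁻¹) * h⁻¹ := by group
        rw [this, hgx]; group
    · rintro ⟨g, hg, hgx⟩
      refine ⟨h⁻¹ * g * h, ?_, ?_⟩
      · have : (h⁻¹ * g * h) ^ 2 = h⁻¹ * g ^ 2 * h := by rw [pow_two, pow_two]; group
        rw [this, hg]; group
      · have : h⁻¹ * g * h * x * (h⁻¹ * g * h)⁻¹ = h⁻¹ * (g * (h * x * h⁻¹) * g⁻¹) * h := by group
        rw [this, hgx]; group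
  rw [hconj]
  generalize h * x * h⁻¹ = y at hxh
  constructor
  · rintro ⟨g, hg, hgy⟩
    obtain ⟨lg, hlg, hlg1, hlg2⟩ := g.2
    obtain ⟨lx, hlx, hlx1, hlx2⟩ := y.2
    have hlg2' : ((g : (Cl (EuclideanSpace ℝ (Fin n)))ˣ) : Cl (EuclideanSpace ℝ (Fin n)))
        = lp lg := hlg2
    have hlx2' : ((y : (Cl (EuclideanSpace ℝ (Fin n)))ˣ) : Cl (EuclideanSpace ℝ (Fin n)))
        = lp lx := hlx2
    have hgg : lp lg * lp lg = 1 := by
      rw [← hlg2']
      have := congrArg (fun z : spin n =>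
        ((z : (Cl (EuclideanSpace ℝ (Fin n)))ˣ) : Cl (EuclideanSpace ℝ (Fin n)))) hg
      simpa [pow_two] using this
    have hgy2 : (g * y) * (g * y) = 1 := by
      have h1 : g * y * (g * y) = (g * y * g⁻¹) * (g ^ 2) * y := by rw [pow_two]; group
      rw [h1, hgy, hg]; group
    have hgx : lp lg * lp lx * (lp lg * lp lx) = 1 := by
      rw [← hlg2', ← hlx2']
      have := congrArg (fun z : spin n =>
        ((z : (Cl (EuclideanSpace ℝ (Fin n)))ˣ) : Cl (EuclideanSpace ℝ (Fin n)))) hgy2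
      simpa using this
    exact criterion_of_core (necessity_core θ hlg hlg1 hlx hlx1 (hlx2'.symm.trans hxh) hgg hgx)
  · intro hc
    obtain ⟨I, hI, h0, h1⟩ := sufficiency θ hc
    have hev : Even I.card := by
      obtain ⟨k, hk⟩ := hI
      exact ⟨2 * k, by omega⟩
    obtain ⟨g, hg⟩ := exists_spin (bl I) (by rw [bl_length]; exact hev) (bl_norm I)
    obtain ⟨x', hx1, hx2⟩ := conj_normalForm θ I hev h0 h1
    have hg2 : g ^ 2 = 1 := by
      apply ext_spin
      rw [pow_two]
      have := lp_bl_sq I hI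
      rw [← hg] at this
      simpa using this
    refine ⟨g, hg2, ?_⟩
    have hmul : g * y * g⁻¹ * y = 1 := by
      have hginv : g⁻¹ = g := by
        rw [inv_eq_iff_mul_eq_one, ← pow_two]; exact hg2
      rw [hginv]
      apply ext_spin
      have e1 : (((g * y * g * y : spin n) : (Cl (EuclideanSpace ℝ (Fin n)))ˣ) :
          Cl (EuclideanSpace ℝ (Fin n))) = lp (bl I) * normalForm n θ * lp (bl I)
            * normalForm n θ := by
        rw [← hg, ← hxh]; simp
      rw [e1, hx1, mul_assoc x', lp_bl_sq I hI, mul_one, hx2]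
      simp
    exact eq_inv_of_mul_eq_one_left hmul

end Pool.Agent.Q8.SPN
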