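import Pool.Agent.Q8.SPN.Tools

/-!
Necessity of the criterion.
-/

namespace Pool.Agent.Q8.SPN

open CliffordAlgebra

/-- basis vector -/
noncomputable abbrev bv (n : ℕ) (i : Fin n) : EuclideanSpace ℝ (Fin n) :=
  EuclideanSpace.single i 1

/-- trace formula from the reflection form -/
lemma trace_form {n k : ℕ} {R : EuclideanSpace ℝ (Fin n) → EuclideanSpace ℝ (Fin n)}
    {f : Fin k → EuclideanSpace ℝ (Fin n)} (hf : ∀ i, ‖f i‖ = 1)
    (hR : ∀ v, R v = v - (2 : ℝ) • ∑ i, (inner ℝ (f i) v : ℝ) • f i) :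
    ∑ i, (inner ℝ (bv n i) (R (bv n i)) : ℝ) = n - 2 * k := by
  have h1 : ∀ i, (inner ℝ (bv n i) (R (bv n i)) : ℝ)
      = 1 - 2 * ∑ j, (inner ℝ (f j) (bv n i) : ℝ) * inner ℝ (bv n i) (f j) := by
    intro i
    rw [hR, inner_sub_right, inner_smul_right, inner_sum]
    simp only [inner_smul_right]
    congr 1
    simp [bv]
  simp only [h1]
  rw [Finset.sum_sub_distrib, ← Finset.mul_sum, Finset.sum_comm]
  have h2 : ∀ j, ∑ i, (inner ℝ (f j) (bv n i) : ℝ) * inner ℝ (bv n i) (f j) = 1 := by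
    intro j
    have := (EuclideanSpace.basisFun (Fin n) ℝ).sum_inner_mul_inner (f j) (f j)
    simp only [EuclideanSpace.basisFun_apply] at this
    rw [this, real_inner_self_eq_norm_sq, hf]; norm_num
  simp [h2]

lemma symm_form {n k : ℕ} {R : EuclideanSpace ℝ (Fin n) → EuclideanSpace ℝ (Fin n)}
    {f : Fin k → EuclideanSpace ℝ (Fin n)}
    (hR : ∀ v, R v = v - (2 : ℝ) • ∑ i, (inner ℝ (f i) v : ℝ) • f i)
    (v w : EuclideanSpace ℝ (Fin n)) :
    (inner ℝ v (R w) : ℝ) = inner ℝ w (R v) := by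
  rw [hR, hR, inner_sub_right, inner_sub_right, inner_smul_right, inner_smul_right, inner_sum,
    inner_sum, real_inner_comm v w]
  congr 2
  apply Finset.sum_congr rfl
  intro i _
  rw [inner_smul_right, inner_smul_right, real_inner_comm v (f i), real_inner_comm w (f i)]
  ring

/-- Numerical core of the necessity part. -/
theorem necessity_core {n : ℕ} (θ : Fin (n / 2) → ℝ)
    {lg lx : List (EuclideanSpace ℝ (Fin n))}
    (hg : Even lg.length) (hg1 : ∀ v ∈ lg, ‖v‖ = 1)
    (hx : Even lx.length) (hx1 : ∀ v ∈ lx, ‖v‖ = 1)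
    (hxn : lp lx = normalForm n θ)
    (hgg : lp lg * lp lg = 1) (hgx : lp lg * lp lx * (lp lg * lp lx) = 1) :
    ∃ k k' : ℕ, 4 ∣ k ∧ 4 ∣ k' ∧
      |(k' : ℤ) - k| ≤ 2 * (numCosZero θ : ℤ) ∧
      |(n : ℤ) - k - k'| ≤ 2 * (numSinZero θ : ℤ) + (n % 2 : ℕ) := by
  classical
  obtain ⟨R, hR0⟩ := exists_ad lg hg1
  obtain ⟨X, hX0⟩ := exists_ad lx hx1
  have hR : ∀ v, lp lg * io v = io (R v) * lp lg := fun v => by
    rw [hR0 v, hg.neg_one_pow, one_mul]
  have hX : ∀ v, lp lx * io v = io (X v) * lp lx := fun v => by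
    rw [hX0 v, hx.neg_one_pow, one_mul]
  have hY : ∀ v, lp (lg ++ lx) * io v = io ((R.comp X) v) * lp (lg ++ lx) := by
    intro v
    rw [lp_append, mul_assoc, hX, ← mul_assoc, hR, mul_assoc]
    rfl
  obtain ⟨k, f, hk, hf, hRf, hRn⟩ := invol_struct hg1 hg hgg hR
  obtain ⟨k', f', hk', hf', hYf, hYn⟩ := invol_struct (l := lg ++ lx)
    (by intro v hv; rcases List.mem_append.mp hv with h | h
        · exact hg1 v h
        · exact hx1 v h)
    (by rw [List.length_append]; exact hg.add hx)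
    (by rw [lp_append]; exact hgx) hY
  -- cancellation of lp lx on the right
  have hxinv : lp lx * lp (lx.reverse.map (fun v => -v)) = 1 := lp_mul_lp_reverse lx hx1
  have hcancel : ∀ {a b : Cl (EuclideanSpace ℝ (Fin n))}, a * lp lx = b * lp lx → a = b := by
    intro a b h
    have := congrArg (· * lp (lx.reverse.map (fun v => -v))) h
    simpa only [mul_assoc, hxinv, mul_one] using this
  -- action of X on basis vectors
  have hcs : ∀ j, Real.cos (θ j) ^ 2 + Real.sin (θ j) ^ 2 = 1 := fun j => Real.cos_sq_add_sin_sq _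
  have hXe : ∀ j : Fin (n / 2), X (bv n ⟨2 * j, by omega⟩)
      = (Real.cos (θ j) ^ 2 - Real.sin (θ j) ^ 2) • bv n ⟨2 * j, by omega⟩
        + (2 * Real.cos (θ j) * Real.sin (θ j)) • bv n ⟨2 * j + 1, by omega⟩ := by
    intro j
    apply io_inj
    apply hcancel
    rw [← hX, hxn, normalForm_eq]
    have h1 : io ((Real.cos (θ j) ^ 2 - Real.sin (θ j) ^ 2) • bv n ⟨2 * j, by omega⟩
        + (2 * Real.cos (θ j) * Real.sin (θ j)) • bv n ⟨2 * j + 1, by omega⟩)
        = (Real.cos (θ j) ^ 2 - Real.sin (θ j) ^ 2) • gen n ⟨2 * j, by omega⟩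
        + (2 * Real.cos (θ j) * Real.sin (θ j)) • gen n ⟨2 * j + 1, by omega⟩ := by
      show ι (nq _) _ = _
      rw [map_add, map_smul, map_smul]
      rfl
    rw [h1]
    have hv : ∀ i : Fin (n / 2), i ≠ j → fac θ i * gen n ⟨2 * j, by omega⟩
        = gen n ⟨2 * j, by omega⟩ * fac θ i := by
      intro i hij
      have : (i : ℕ) ≠ j := fun h => hij (Fin.ext h)
      apply fac_mul_gen
      · simp only; omega
      · simp only; omega
    have hv' : ∀ i : Fin (n / 2), i ≠ j → fac θ i * gen n ⟨2 * j + 1, by omega⟩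
        = gen n ⟨2 * j + 1, by omega⟩ * fac θ i := by
      intro i hij
      have : (i : ℕ) ≠ j := fun h => hij (Fin.ext h)
      apply fac_mul_gen
      · simp only; omega
      · simp only; omega
    apply ofFn_prod_mul_of (fac θ) _ _ j hv
    · intro i hij
      rw [mul_add, add_mul, mul_smul_comm, mul_smul_comm, smul_mul_assoc, smul_mul_assoc,
        hv i hij, hv' i hij]
    · have hne : (⟨2 * j, by omega⟩ : Fin n) ≠ ⟨2 * j + 1, by omega⟩ := by
        intro h
        have := congrArg Fin.val h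
        simp only at this
        omega
      exact rot_even (gen_sq _) (gen_sq _) (gen_anti hne) _ _ (hcs j)
  have hXo : ∀ j : Fin (n / 2), X (bv n ⟨2 * j + 1, by omega⟩)
      = (Real.cos (θ j) ^ 2 - Real.sin (θ j) ^ 2) • bv n ⟨2 * j + 1, by omega⟩
        - (2 * Real.cos (θ j) * Real.sin (θ j)) • bv n ⟨2 * j, by omega⟩ := by
    intro j
    apply io_inj
    apply hcancel
    rw [← hX, hxn, normalForm_eq]
    have h1 : io ((Real.cos (θ j) ^ 2 - Real.sin (θ j) ^ 2) • bv n ⟨2 * j + 1, by omega⟩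
        - (2 * Real.cos (θ j) * Real.sin (θ j)) • bv n ⟨2 * j, by omega⟩)
        = (Real.cos (θ j) ^ 2 - Real.sin (θ j) ^ 2) • gen n ⟨2 * j + 1, by omega⟩
        - (2 * Real.cos (θ j) * Real.sin (θ j)) • gen n ⟨2 * j, by omega⟩ := by
      show ι (nq _) _ = _
      rw [map_sub, map_smul, map_smul]
      rfl
    rw [h1]
    have hv : ∀ i : Fin (n / 2), i ≠ j → fac θ i * gen n ⟨2 * j, by omega⟩
        = gen n ⟨2 * j, by omega⟩ * fac θ i := by
      intro i hij
      have : (i : ℕ) ≠ j := fun h => hij (Fin.ext h)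
      apply fac_mul_gen
      · simp only; omega
      · simp only; omega
    have hv' : ∀ i : Fin (n / 2), i ≠ j → fac θ i * gen n ⟨2 * j + 1, by omega⟩
        = gen n ⟨2 * j + 1, by omega⟩ * fac θ i := by
      intro i hij
      have : (i : ℕ) ≠ j := fun h => hij (Fin.ext h)
      apply fac_mul_gen
      · simp only; omega
      · simp only; omega
    apply ofFn_prod_mul_of (fac θ) _ _ j hv'
    · intro i hij
      rw [mul_sub, sub_mul, mul_smul_comm, mul_smul_comm, smul_mul_assoc, smul_mul_assoc,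
        hv i hij, hv' i hij]
    · have hne : (⟨2 * j, by omega⟩ : Fin n) ≠ ⟨2 * j + 1, by omega⟩ := by
        intro h
        have := congrArg Fin.val h
        simp only at this
        omega
      exact rot_odd (gen_sq _) (gen_sq _) (gen_anti hne) _ _ (hcs j)
  have hXl : ∀ h : n % 2 = 1, X (bv n ⟨n - 1, by omega⟩) = bv n ⟨n - 1, by omega⟩ := by
    intro h
    apply io_inj
    apply hcancel
    rw [← hX, hxn, normalForm_eq]
    have h1 : Commute (List.ofFn (fac θ)).prod (gen n ⟨n - 1, by omega⟩) := by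
      apply Commute.list_prod_left
      intro x hx
      rw [List.mem_ofFn] at hx
      obtain ⟨i, rfl⟩ := hx
      apply fac_mul_gen
      · simp only; omega
      · simp only; omega
    exact h1.eq
  -- block traces
  set T : Fin (n / 2) → ℝ := fun j =>
    (inner ℝ (bv n ⟨2 * j, by omega⟩) (R (bv n ⟨2 * j, by omega⟩)) : ℝ)
      + inner ℝ (bv n ⟨2 * j + 1, by omega⟩) (R (bv n ⟨2 * j + 1, by omega⟩)) with hT
  set L : ℝ := if h : n % 2 = 1 then
    (inner ℝ (bv n ⟨n - 1, by omega⟩) (R (bv n ⟨n - 1, by omega⟩)) : ℝ) else 0 with hL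
  have hcalc1 : ∀ j, (2 * Real.cos (θ j) * Real.sin (θ j)) * T j = 0 := by
    intro j
    have e1 := symm_form hYf (bv n ⟨2 * j, by omega⟩) (bv n ⟨2 * j + 1, by omega⟩)
    have e2 := symm_form hRf (bv n ⟨2 * j, by omega⟩) (bv n ⟨2 * j + 1, by omega⟩)
    rw [LinearMap.comp_apply, LinearMap.comp_apply, hXe, hXo, map_add, map_sub, map_smul,
      map_smul, map_smul, map_smul, inner_add_right, inner_sub_right, inner_smul_right,
      inner_smul_right, inner_smul_right, inner_smul_right, e2] at e1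
    simp only [hT]
    linear_combination -e1
  have hcalc2 : ∀ j : Fin (n / 2),
      (inner ℝ (bv n ⟨2 * j, by omega⟩) ((R.comp X) (bv n ⟨2 * j, by omega⟩)) : ℝ)
      + inner ℝ (bv n ⟨2 * j + 1, by omega⟩) ((R.comp X) (bv n ⟨2 * j + 1, by omega⟩))
      = (Real.cos (θ j) ^ 2 - Real.sin (θ j) ^ 2) * T j := by
    intro j
    have e2 := symm_form hRf (bv n ⟨2 * j, by omega⟩) (bv n ⟨2 * j + 1, by omega⟩)
    rw [LinearMap.comp_apply, LinearMap.comp_apply, hXe, hXo, map_add, map_sub, map_smul,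
      map_smul, map_smul, map_smul, inner_add_right, inner_sub_right, inner_smul_right,
      inner_smul_right, inner_smul_right, inner_smul_right, e2]
    simp only [hT]
    ring
  have hbd : ∀ i, |(inner ℝ (bv n i) (R (bv n i)) : ℝ)| ≤ 1 := by
    intro i
    have h := abs_real_inner_le_norm (bv n i) (R (bv n i))
    rw [hRn] at h
    simpa [bv] using h
  have hTb : ∀ j, |T j| ≤ 2 := by
    intro j
    have h := abs_add_le (inner ℝ (bv n ⟨2 * j, by omega⟩) (R (bv n ⟨2 * j, by omega⟩)) : ℝ)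
      (inner ℝ (bv n ⟨2 * j + 1, by omega⟩) (R (bv n ⟨2 * j + 1, by omega⟩)))
    have h1 := hbd ⟨2 * j, by omega⟩
    have h2 := hbd ⟨2 * j + 1, by omega⟩
    simp only [hT]
    linarith
  have hLb : |L| ≤ ((n % 2 : ℕ) : ℝ) := by
    simp only [hL]
    split_ifs with h
    · rw [h]; simpa using hbd ⟨n - 1, by omega⟩
    · simp
  -- traces
  have ht1 := trace_form hf hRf
  have ht2 := trace_form hf' hYf
  rw [sum_split n] at ht1 ht2
  have hLeq : (if h : n % 2 = 1 then (inner ℝ (bv n ⟨n - 1, by omega⟩)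
      ((R.comp X) (bv n ⟨n - 1, by omega⟩)) : ℝ) else 0) = L := by
    simp only [hL]
    split_ifs with h
    · rw [LinearMap.comp_apply, hXl h]
    · rfl
  rw [hLeq] at ht2
  simp only [hcalc2] at ht2
  have ht1' : ∑ j, T j + L = n - 2 * k := ht1
  have ht2' : ∑ j, (Real.cos (θ j) ^ 2 - Real.sin (θ j) ^ 2) * T j + L = n - 2 * k' := ht2
  set A : ℝ := ∑ j, (if Real.sin (θ j) = 0 then T j else 0) with hA
  set B : ℝ := ∑ j, (if Real.cos (θ j) = 0 then T j else 0) with hB
  have hsplit : ∀ j, T j = (if Real.sin (θ j) = 0 then T j else 0)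
      + (if Real.cos (θ j) = 0 then T j else 0) ∧
      (Real.cos (θ j) ^ 2 - Real.sin (θ j) ^ 2) * T j = (if Real.sin (θ j) = 0 then T j else 0)
      - (if Real.cos (θ j) = 0 then T j else 0) := by
    intro j
    have h1 := hcs j
    by_cases hs : Real.sin (θ j) = 0
    · have hc : Real.cos (θ j) ≠ 0 := by
        intro hc; rw [hs, hc] at h1; norm_num at h1
      rw [if_pos hs, if_neg hc]
      rw [hs] at h1 ⊢
      constructor
      · ring
      · have : Real.cos (θ j) ^ 2 = 1 := by linarith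
        rw [this]; ring
    · by_cases hc : Real.cos (θ j) = 0
      · rw [if_neg hs, if_pos hc]
        rw [hc] at h1 ⊢
        constructor
        · ring
        · have : Real.sin (θ j) ^ 2 = 1 := by linarith
          rw [this]; ring
      · have hT0 : T j = 0 := by
          have h2 := hcalc1 j
          rcases mul_eq_zero.mp h2 with h3 | h3
          · exfalso
            rcases mul_eq_zero.mp h3 with h4 | h4
            · rcases mul_eq_zero.mp h4 with h5 | h5
              · norm_num at h5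
              · exact hc h5
            · exact hs h4
          · exact h3
        rw [hT0]; simp
  have hs1 : ∑ j, T j = A + B := by
    rw [hA, hB, ← Finset.sum_add_distrib]
    exact Finset.sum_congr rfl (fun j _ => (hsplit j).1)
  have hs2 : ∑ j, (Real.cos (θ j) ^ 2 - Real.sin (θ j) ^ 2) * T j = A - B := by
    rw [hA, hB, ← Finset.sum_sub_distrib]
    exact Finset.sum_congr rfl (fun j _ => (hsplit j).2)
  rw [hs1] at ht1'
  rw [hs2] at ht2'
  have hAb : |A| ≤ 2 * (numSinZero θ : ℝ) := by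
    calc |A| ≤ ∑ j, |(if Real.sin (θ j) = 0 then T j else 0)| := Finset.abs_sum_le_sum_abs _ _
      _ ≤ ∑ j, (if Real.sin (θ j) = 0 then (2 : ℝ) else 0) := by
          apply Finset.sum_le_sum
          intro j _
          split_ifs
          · exact hTb j
          · simp
      _ = 2 * (numSinZero θ : ℝ) := by
          rw [← Finset.sum_filter, Finset.sum_const, nsmul_eq_mul, numSinZero,
            Nat.card_eq_fintype_card, Fintype.card_subtype]
          ring
  have hBb : |B| ≤ 2 * (numCosZero θ : ℝ) := by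
    calc |B| ≤ ∑ j, |(if Real.cos (θ j) = 0 then T j else 0)| := Finset.abs_sum_le_sum_abs _ _
      _ ≤ ∑ j, (if Real.cos (θ j) = 0 then (2 : ℝ) else 0) := by
          apply Finset.sum_le_sum
          intro j _
          split_ifs
          · exact hTb j
          · simp
      _ = 2 * (numCosZero θ : ℝ) := by
          rw [← Finset.sum_filter, Finset.sum_const, nsmul_eq_mul, numCosZero,
            Nat.card_eq_fintype_card, Fintype.card_subtype]
          ring
  refine ⟨k, k', hk, hk', ?_, ?_⟩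
  · have h1 : B = (k' : ℝ) - k := by linarith
    rw [h1] at hBb
    exact_mod_cast hBb
  · have h1 : A + L = (n : ℝ) - k - k' := by linarith
    have h2 : |A + L| ≤ 2 * (numSinZero θ : ℝ) + ((n % 2 : ℕ) : ℝ) :=
      (abs_add_le _ _).trans (add_le_add hAb hLb)
    rw [h1] at h2
    rw [← Int.cast_le (R := ℝ), Int.cast_abs]
    simp only [Int.cast_sub, Int.cast_natCast, Int.cast_add, Int.cast_mul, Int.cast_ofNat]
    exact h2

theorem criterion_of_core {n a b : ℕ} (h : ∃ k k' : ℕ, 4 ∣ k ∧ 4 ∣ k' ∧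
      |(k' : ℤ) - k| ≤ 2 * (b : ℤ) ∧ |(n : ℤ) - k - k'| ≤ 2 * (a : ℤ) + (n % 2 : ℕ)) :
    Criterion n a b := by
  obtain ⟨k, k', hk, hk', h1, h2⟩ := h
  rw [abs_le] at h1 h2
  unfold Criterion
  omega

end Pool.Agent.Q8.SPN
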