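import Pool.Agent.Q8.SPN.Nec

/-!
Sufficiency of the criterion.
-/

namespace Pool.Agent.Q8.SPN

open CliffordAlgebra

/-- list of basis vectors of a finset of indices -/
noncomputable def bl {n : ℕ} (I : Finset (Fin n)) : List (EuclideanSpace ℝ (Fin n)) :=
  I.toList.map (bv n)

lemma bl_length {n : ℕ} (I : Finset (Fin n)) : (bl I).length = I.card := by
  simp [bl]

lemma bl_norm {n : ℕ} (I : Finset (Fin n)) : ∀ v ∈ bl I, ‖v‖ = 1 := by
  intro v hv
  simp only [bl, List.mem_map] at hv
  obtain ⟨i, _, rfl⟩ := hv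
  simp [bv]

lemma inner_bv {n : ℕ} (i j : Fin n) : (inner ℝ (bv n i) (bv n j) : ℝ) = if i = j then 1 else 0 := by
  rw [EuclideanSpace.inner_single_left]
  simp

lemma bl_pairwise {n : ℕ} (I : Finset (Fin n)) :
    (bl I).Pairwise (fun v w => inner ℝ v w = (0 : ℝ)) := by
  rw [bl, List.pairwise_map]
  refine List.Pairwise.imp ?_ (Finset.nodup_toList I)
  intro i j hij
  rw [inner_bv, if_neg hij]

lemma rf_bv {n : ℕ} (l : List (Fin n)) (hl : l.Nodup) (i : Fin n) :
    rf (l.map (bv n)) (bv n i) = (if i ∈ l then (-1 : ℝ) else 1) • bv n i := by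
  induction l with
  | nil => simp [rf]
  | cons j l ih =>
    rw [List.nodup_cons] at hl
    rw [List.map_cons, rf, ih hl.2, inner_bv]
    by_cases hij : j = i
    · subst hij
      rw [if_neg hl.1, if_pos rfl, if_pos (List.mem_cons_self ..)]
      module
    · rw [if_neg hij]
      by_cases hi : i ∈ l
      · rw [if_pos hi, if_pos (List.mem_cons_of_mem _ hi)]; simp
      · rw [if_neg hi, if_neg (by simp only [List.mem_cons, not_or]; exact ⟨fun h => hij h.symm, hi⟩)]
        simp

/-- sign of an index -/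
noncomputable def sn {n : ℕ} (I : Finset (Fin n)) (i : Fin n) : ℝ :=
  open Classical in if i ∈ I then -1 else 1

lemma lp_bl_gen {n : ℕ} (I : Finset (Fin n)) (hI : Even I.card) (i : Fin n) :
    lp (bl I) * gen n i = (sn I i • gen n i) * lp (bl I) := by
  have h := lp_mul_io (bl_norm I) (bl_pairwise I) (bv n i)
  rw [bl_length, hI.neg_one_pow, one_mul] at h
  have h2 : io (rf (bl I) (bv n i)) = sn I i • gen n i := by
    rw [bl, rf_bv _ (Finset.nodup_toList I)]
    show ι (nq _) _ = _
    rw [map_smul, sn]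
    simp only [Finset.mem_toList]
    rfl
  rw [h2] at h
  exact h

lemma lp_bl_sq {n : ℕ} (I : Finset (Fin n)) (hI : 4 ∣ I.card) : lp (bl I) * lp (bl I) = 1 := by
  rw [lp_sq (bl_norm I) (bl_pairwise I), bl_length, sg_eq, if_pos (Or.inl (by omega))]
  simp

section suff

variable {n : ℕ} (θ : Fin (n / 2) → ℝ)

/-- sign of the plane `j` -/
noncomputable def eta (I : Finset (Fin n)) (j : Fin (n / 2)) : ℝ :=
  sn I ⟨2 * j, by omega⟩ * sn I ⟨2 * j + 1, by omega⟩

/-- the product of the two generators of plane `j` -/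
noncomputable def pr (n : ℕ) (j : Fin (n / 2)) : Cl (EuclideanSpace ℝ (Fin n)) :=
  gen n ⟨2 * j, by omega⟩ * gen n ⟨2 * j + 1, by omega⟩

lemma fac_eq (j : Fin (n / 2)) :
    fac θ j = algebraMap ℝ _ (Real.cos (θ j)) + Real.sin (θ j) • pr n j := rfl

lemma pr_sq (j : Fin (n / 2)) : pr n j * pr n j = -1 := by
  have hne : (⟨2 * j, by omega⟩ : Fin n) ≠ ⟨2 * j + 1, by omega⟩ := by
    intro h
    have := congrArg Fin.val h
    simp only at this
    omega
  unfold pr
  nth_rewrite 1 [gen_anti hne]
  rw [neg_mul, mul_assoc, ← mul_assoc (gen n ⟨2 * j, _⟩) (gen n ⟨2 * j, _⟩), gen_sq]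
  simp [gen_sq]

lemma pr_comm (i j : Fin (n / 2)) : Commute (pr n i) (pr n j) := by
  by_cases hij : i = j
  · rw [hij]
  · have h0 : (i : ℕ) ≠ j := fun h => hij (Fin.ext h)
    have e : ∀ k : Fin n, (k : ℕ) / 2 = j → pr n i * gen n k = gen n k * pr n i := by
      intro k hk
      apply pair_mul_gen
      · intro h; have := congrArg Fin.val h; simp only at this; omega
      · intro h; have := congrArg Fin.val h; simp only at this; omega
    show pr n i * pr n j = pr n j * pr n i
    unfold pr
    rw [← mul_assoc]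
    have e1 := e ⟨2 * j, by omega⟩ (by simp only; omega)
    have e2 := e ⟨2 * j + 1, by omega⟩ (by simp only; omega)
    unfold pr at e1 e2
    rw [e1, mul_assoc, e2, mul_assoc]

lemma conj_pr (I : Finset (Fin n)) (hI : Even I.card) (j : Fin (n / 2)) :
    lp (bl I) * pr n j = (eta I j • pr n j) * lp (bl I) := by
  unfold pr
  rw [← mul_assoc, lp_bl_gen I hI, mul_assoc, lp_bl_gen I hI, ← mul_assoc, eta]
  simp only [smul_mul_assoc, mul_smul_comm, smul_smul]
  rw [mul_comm (sn I _) (sn I _)]

lemma conj_fac (I : Finset (Fin n)) (hI : Even I.card) (j : Fin (n / 2)) :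
    lp (bl I) * fac θ j = (algebraMap ℝ _ (Real.cos (θ j))
      + (Real.sin (θ j) * eta I j) • pr n j) * lp (bl I) := by
  rw [fac_eq, mul_add, add_mul, Algebra.commutes, mul_smul_comm, conj_pr I hI, mul_smul]
  simp only [smul_mul_assoc]

/-- The conjugation identity. -/
theorem conj_normalForm (I : Finset (Fin n)) (hI : Even I.card)
    (h0 : ∀ j, (1 + eta I j) * (Real.cos (θ j) * Real.sin (θ j)) = 0)
    (h1 : ∏ j, (Real.cos (θ j) ^ 2 - eta I j * Real.sin (θ j) ^ 2) = 1) :
    ∃ x' : Cl (EuclideanSpace ℝ (Fin n)), lp (bl I) * normalForm n θ = x' * lp (bl I) ∧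
      x' * normalForm n θ = 1 := by
  refine ⟨(List.ofFn fun j => (algebraMap ℝ _ (Real.cos (θ j))
      + (Real.sin (θ j) * eta I j) • pr n j)).prod, ?_, ?_⟩
  · rw [normalForm_eq]
    exact conj_ofFn_prod _ _ _ (conj_fac θ I hI)
  · rw [normalForm_eq, ofFn_prod_mul]
    · have h2 : ∀ j, (algebraMap ℝ (Cl (EuclideanSpace ℝ (Fin n))) (Real.cos (θ j))
          + (Real.sin (θ j) * eta I j) • pr n j) * fac θ j
          = algebraMap ℝ _ (Real.cos (θ j) ^ 2 - eta I j * Real.sin (θ j) ^ 2) := by
        intro j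
        rw [fac_eq]
        simp only [Algebra.algebraMap_eq_smul_one, add_mul, mul_add, smul_mul_assoc,
          mul_smul_comm, one_mul, mul_one, pr_sq, smul_neg]
        have h3 := h0 j
        have h4 : Real.sin (θ j) * (Real.cos (θ j)) + Real.cos (θ j) * (Real.sin (θ j) * eta I j)
            = 0 := by linear_combination h3
        have h5 : Real.cos (θ j) • (Real.cos (θ j) • (1 : Cl (EuclideanSpace ℝ (Fin n)))
            + (Real.sin (θ j) * eta I j) • pr n j)
            + Real.sin (θ j) • (Real.cos (θ j) • pr n j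
              + -((Real.sin (θ j) * eta I j)
                • (1 : Cl (EuclideanSpace ℝ (Fin n)))))
            = (Real.cos (θ j) ^ 2 - eta I j * Real.sin (θ j) ^ 2)
                • (1 : Cl (EuclideanSpace ℝ (Fin n)))
              + (Real.sin (θ j) * (Real.cos (θ j))
                + Real.cos (θ j) * (Real.sin (θ j) * eta I j)) • pr n j := by module
        rw [h5, h4, zero_smul, add_zero]
      simp only [h2]
      have h3 : ∀ (m : ℕ) (r : Fin m → ℝ), (List.ofFn fun j => algebraMap ℝ
          (Cl (EuclideanSpace ℝ (Fin n))) (r j)).prod = algebraMap ℝ _ (∏ j, r j) := by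
        intro m r
        rw [← List.prod_ofFn, map_list_prod, List.map_ofFn]
        rfl
      rw [h3, h1, map_one]
    · intro i j
      rw [fac_eq]
      apply Commute.add_left
      · exact Algebra.commutes _ _
      · apply Commute.add_right
        · exact (Algebra.commutes _ _).symm
        · exact ((pr_comm i j).smul_left _).smul_right _

/-- index set from the even positions `U`, odd positions `W` and possibly the last index -/
noncomputable def mk (U W : Finset (Fin (n / 2))) (last : Bool) : Finset (Fin n) :=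
  open Classical in Finset.univ.filter fun i : Fin n =>
    (∃ j ∈ U, (i : ℕ) = 2 * j) ∨ (∃ j ∈ W, (i : ℕ) = 2 * j + 1) ∨
      (last = true ∧ (i : ℕ) = 2 * (n / 2))

lemma mem_mk_even {U W : Finset (Fin (n / 2))} {last : Bool} {j : Fin (n / 2)} :
    (⟨2 * j, by omega⟩ : Fin n) ∈ mk U W last ↔ j ∈ U := by
  simp only [mk, Finset.mem_filter, Finset.mem_univ, true_and]
  constructor
  · rintro (⟨j', h, h'⟩ | ⟨j', h, h'⟩ | ⟨h, h'⟩)
    · have : j = j' := Fin.ext (by omega)
      rw [this]; exact h
    · omega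
    · omega
  · intro h
    exact Or.inl ⟨j, h, rfl⟩

lemma mem_mk_odd {U W : Finset (Fin (n / 2))} {last : Bool} {j : Fin (n / 2)} :
    (⟨2 * j + 1, by omega⟩ : Fin n) ∈ mk U W last ↔ j ∈ W := by
  simp only [mk, Finset.mem_filter, Finset.mem_univ, true_and]
  constructor
  · rintro (⟨j', h, h'⟩ | ⟨j', h, h'⟩ | ⟨h, h'⟩)
    · omega
    · have : j = j' := Fin.ext (by omega)
      rw [this]; exact h
    · omega
  · intro h
    exact Or.inr (Or.inl ⟨j, h, rfl⟩)

lemma card_mk (U W : Finset (Fin (n / 2))) (last : Bool) (hl : last = true → n % 2 = 1) :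
    (mk U W last).card = U.card + W.card + (if last = true then 1 else 0) := by
  classical
  have h1 : (mk U W last).card = ∑ i : Fin n, if i ∈ mk U W last then 1 else 0 := by
    rw [Finset.sum_boole, Finset.filter_mem_eq_inter, Finset.univ_inter]
    simp
  rw [h1, sum_split n]
  simp only [mem_mk_even, mem_mk_odd]
  rw [Finset.sum_add_distrib, Finset.sum_boole, Finset.sum_boole,
    Finset.filter_mem_eq_inter, Finset.univ_inter, Finset.filter_mem_eq_inter,
    Finset.univ_inter]
  simp only [Nat.cast_id]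
  congr 1
  by_cases h : n % 2 = 1
  · rw [dif_pos h]
    have h2 : (⟨n - 1, by omega⟩ : Fin n) ∈ mk U W last ↔ last = true := by
      simp only [mk, Finset.mem_filter, Finset.mem_univ, true_and]
      constructor
      · rintro (⟨j', _, h'⟩ | ⟨j', _, h'⟩ | ⟨h, h'⟩)
        · omega
        · omega
        · exact h
      · intro h'
        exact Or.inr (Or.inr ⟨h', by omega⟩)
    simp only [h2]
  · rw [dif_neg h, if_neg (fun h' => h (hl h'))]

lemma eta_mk (U W : Finset (Fin (n / 2))) (last : Bool) (j : Fin (n / 2)) :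
    eta (mk U W last) j = open Classical in (if j ∈ U then -1 else 1) * (if j ∈ W then -1 else 1) := by
  classical
  rw [eta, sn, sn]
  simp only [mem_mk_even, mem_mk_odd]

end suff

/-- Sufficiency. -/
theorem sufficiency {n : ℕ} (θ : Fin (n / 2) → ℝ)
    (hc : Criterion n (numSinZero θ) (numCosZero θ)) :
    ∃ I : Finset (Fin n), 4 ∣ I.card ∧
      (∀ j, (1 + eta I j) * (Real.cos (θ j) * Real.sin (θ j)) = 0) ∧
      ∏ j, (Real.cos (θ j) ^ 2 - eta I j * Real.sin (θ j) ^ 2) = 1 := by
  classical
  have hcs : ∀ j, Real.cos (θ j) ^ 2 + Real.sin (θ j) ^ 2 = 1 := fun j => Real.cos_sq_add_sin_sq _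
  -- the basic family
  have base : ∀ last : Bool, (last = true → n % 2 = 1) →
      4 ∣ n / 2 + (if last = true then 1 else 0) →
      ∃ I : Finset (Fin n), 4 ∣ I.card ∧
      (∀ j, (1 + eta I j) * (Real.cos (θ j) * Real.sin (θ j)) = 0) ∧
      ∏ j, (Real.cos (θ j) ^ 2 - eta I j * Real.sin (θ j) ^ 2) = 1 := by
    intro last hl h4
    refine ⟨mk Finset.univ ∅ last, ?_, ?_, ?_⟩
    · rw [card_mk _ _ _ hl]; simpa using h4
    · intro j; rw [eta_mk]; simp
    · apply Finset.prod_eq_one
      intro j _
      rw [eta_mk]; simp [hcs]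
  have single : ∀ (last : Bool) (j0 : Fin (n / 2)), Real.sin (θ j0) = 0 →
      (last = true → n % 2 = 1) →
      (4 ∣ n / 2 - 1 + (if last = true then 1 else 0) ∨
        4 ∣ n / 2 + 1 + (if last = true then 1 else 0)) →
      ∃ I : Finset (Fin n), 4 ∣ I.card ∧
      (∀ j, (1 + eta I j) * (Real.cos (θ j) * Real.sin (θ j)) = 0) ∧
      ∏ j, (Real.cos (θ j) ^ 2 - eta I j * Real.sin (θ j) ^ 2) = 1 := by
    intro last j0 hj0 hl h4
    have hcj : Real.cos (θ j0) ^ 2 = 1 := by have := hcs j0; rw [hj0] at this; linarith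
    rcases h4 with h4 | h4
    · refine ⟨mk (Finset.univ.erase j0) ∅ last, ?_, ?_, ?_⟩
      · rw [card_mk _ _ _ hl, Finset.card_erase_of_mem (Finset.mem_univ _)]
        simpa using h4
      · intro j; rw [eta_mk]
        by_cases h : j = j0
        · rw [h, hj0]; simp
        · simp [h]
      · apply Finset.prod_eq_one
        intro j _
        rw [eta_mk]
        by_cases h : j = j0
        · rw [h, hj0, hcj]; simp
        · simp [h, hcs]
    · refine ⟨mk Finset.univ {j0} last, ?_, ?_, ?_⟩
      · rw [card_mk _ _ _ hl]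
        simpa using h4
      · intro j; rw [eta_mk]
        by_cases h : j = j0
        · rw [h, hj0]; simp
        · simp [h]
      · apply Finset.prod_eq_one
        intro j _
        rw [eta_mk]
        by_cases h : j = j0
        · rw [h, hj0, hcj]; simp
        · simp [h, hcs]
  have double : ∀ (last : Bool) (j0 j1 : Fin (n / 2)), j0 ≠ j1 →
      ((Real.sin (θ j0) = 0 ∧ Real.sin (θ j1) = 0) ∨
        (Real.cos (θ j0) = 0 ∧ Real.cos (θ j1) = 0)) →
      (last = true → n % 2 = 1) →
      4 ∣ n / 2 - 2 + (if last = true then 1 else 0) →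
      ∃ I : Finset (Fin n), 4 ∣ I.card ∧
      (∀ j, (1 + eta I j) * (Real.cos (θ j) * Real.sin (θ j)) = 0) ∧
      ∏ j, (Real.cos (θ j) ^ 2 - eta I j * Real.sin (θ j) ^ 2) = 1 := by
    intro last j0 j1 hne hj hl h4
    refine ⟨mk ((Finset.univ.erase j0).erase j1) ∅ last, ?_, ?_, ?_⟩
    · rw [card_mk _ _ _ hl, Finset.card_erase_of_mem (by simp [hne.symm]),
        Finset.card_erase_of_mem (Finset.mem_univ _)]
      simp only [Finset.card_univ, Fintype.card_fin, Finset.card_empty, add_zero]
      have : n / 2 - 1 - 1 = n / 2 - 2 := by omega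
      rw [this]; exact h4
    · intro j; rw [eta_mk]
      by_cases h : j = j0
      · rcases hj with hj | hj
        · rw [h, hj.1]; simp
        · rw [h, hj.1]; simp
      · by_cases h' : j = j1
        · rcases hj with hj | hj
          · rw [h', hj.2]; simp
          · rw [h', hj.2]; simp
        · simp [h, h']
    · rw [Fintype.prod_eq_mul j0 j1 hne]
      · rw [eta_mk, eta_mk]
        have h0 := hcs j0
        have h1 := hcs j1
        rcases hj with hj | hj
        · rw [hj.1] at h0 ⊢
          rw [hj.2] at h1 ⊢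
          simp only [Finset.mem_erase, ne_eq, not_true_eq_false, false_and, and_false,
            if_false, Finset.notMem_empty]
          have e0 : Real.cos (θ j0) ^ 2 = 1 := by linarith
          have e1 : Real.cos (θ j1) ^ 2 = 1 := by linarith
          rw [e0, e1]; norm_num
        · rw [hj.1] at h0 ⊢
          rw [hj.2] at h1 ⊢
          simp only [Finset.mem_erase, ne_eq, not_true_eq_false, false_and, and_false,
            if_false, Finset.notMem_empty]
          have e0 : Real.sin (θ j0) ^ 2 = 1 := by linarith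
          have e1 : Real.sin (θ j1) ^ 2 = 1 := by linarith
          rw [e0, e1]; norm_num
      · rintro j ⟨h, h'⟩
        rw [eta_mk]
        simp [h, h', hcs]
  -- choosing the planes
  have ha1 : 1 ≤ numSinZero θ → ∃ j, Real.sin (θ j) = 0 := by
    intro h
    rw [numSinZero] at h
    have := (Nat.card_pos_iff.mp (by omega : 0 < Nat.card {j // Real.sin (θ j) = 0})).1
    obtain ⟨⟨j, hj⟩⟩ := this
    exact ⟨j, hj⟩
  have ha2 : 2 ≤ numSinZero θ → ∃ j0 j1, j0 ≠ j1 ∧ Real.sin (θ j0) = 0 ∧ Real.sin (θ j1) = 0 := by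
    intro h
    rw [numSinZero] at h
    have h' : 1 < Fintype.card {j // Real.sin (θ j) = 0} := by
      rw [← Nat.card_eq_fintype_card]; omega
    obtain ⟨⟨j0, h0⟩, ⟨j1, h1⟩, hne⟩ := Fintype.one_lt_card_iff.mp h'
    exact ⟨j0, j1, fun h => hne (Subtype.ext h), h0, h1⟩
  have hb2 : 2 ≤ numCosZero θ → ∃ j0 j1, j0 ≠ j1 ∧ Real.cos (θ j0) = 0 ∧ Real.cos (θ j1) = 0 := by
    intro h
    rw [numCosZero] at h
    have h' : 1 < Fintype.card {j // Real.cos (θ j) = 0} := by
      rw [← Nat.card_eq_fintype_card]; omega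
    obtain ⟨⟨j0, h0⟩, ⟨j1, h1⟩, hne⟩ := Fintype.one_lt_card_iff.mp h'
    exact ⟨j0, j1, fun h => hne (Subtype.ext h), h0, h1⟩
  rcases hc with hc | ⟨hn, hc⟩ | ⟨hn, hc⟩ | ⟨hn, hc⟩
  · rcases hc with hn | hn | hn
    · exact base false (by simp) (by simp; omega)
    · exact base false (by simp) (by simp; omega)
    · exact base true (fun _ => by omega) (by simp; omega)
  · rcases hc with hc | hc
    · obtain ⟨j0, h0⟩ := ha1 hc
      rcases hn with hn | hn
      · exact single false j0 h0 (by simp) (Or.inl (by simp; omega))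
      · exact single true j0 h0 (fun _ => by omega) (Or.inr (by simp; omega))
    · obtain ⟨j0, j1, hne, h0, h1⟩ := hb2 hc
      rcases hn with hn | hn
      · exact double true j0 j1 hne (Or.inr ⟨h0, h1⟩) (fun _ => by omega) (by
          have := j0.2; have := j1.2
          have : (j0 : ℕ) ≠ j1 := fun h => hne (Fin.ext h)
          simp; omega)
      · exact double false j0 j1 hne (Or.inr ⟨h0, h1⟩) (by simp) (by
          have := j0.2; have := j1.2
          have : (j0 : ℕ) ≠ j1 := fun h => hne (Fin.ext h)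
          simp; omega)
  · obtain ⟨j0, h0⟩ := ha1 hc
    rcases hn with hn | hn
    · exact single false j0 h0 (by simp) (Or.inl (by simp; omega))
    · exact single false j0 h0 (by simp) (Or.inr (by simp; omega))
  · rcases hc with hc | hc
    · obtain ⟨j0, j1, hne, h0, h1⟩ := ha2 hc
      exact double false j0 j1 hne (Or.inl ⟨h0, h1⟩) (by simp) (by simp; omega)
    · obtain ⟨j0, j1, hne, h0, h1⟩ := hb2 hc
      exact double false j0 j1 hne (Or.inr ⟨h0, h1⟩) (by simp) (by simp; omega)

end Pool.Agent.Q8.SPN
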