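import Pool.Agent.Q8.SPN.Defs

/-!
Tools: products over `List.ofFn`, splitting sums over `Fin n` into pairs, factors of the normal form.
-/

namespace Pool.Agent.Q8.SPN

open CliffordAlgebra

section lists

variable {A : Type*} [Ring A]

lemma ofFn_prod_mul {m : ℕ} (c d : Fin m → A) (h : ∀ i j, Commute (c i) (d j)) :
    (List.ofFn c).prod * (List.ofFn d).prod = (List.ofFn fun i => c i * d i).prod := by
  induction m with
  | zero => simp
  | succ m ih =>
    rw [List.ofFn_succ, List.ofFn_succ, List.ofFn_succ, List.prod_cons, List.prod_cons,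
      List.prod_cons, ← ih (fun i => c i.succ) (fun i => d i.succ) (fun i j => h _ _)]
    have hc : Commute (List.ofFn fun i => c (Fin.succ i)).prod (d 0) := by
      apply Commute.list_prod_left
      intro x hx
      rw [List.mem_ofFn] at hx
      obtain ⟨i, rfl⟩ := hx
      exact h _ _
    calc c 0 * (List.ofFn fun i => c (Fin.succ i)).prod
          * (d 0 * (List.ofFn fun i => d (Fin.succ i)).prod)
        = c 0 * ((List.ofFn fun i => c (Fin.succ i)).prod * d 0)
          * (List.ofFn fun i => d (Fin.succ i)).prod := by simp only [mul_assoc]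
      _ = _ := by rw [hc.eq]; simp only [mul_assoc]

lemma conj_ofFn_prod {m : ℕ} (g : A) (c c' : Fin m → A) (h : ∀ i, g * c i = c' i * g) :
    g * (List.ofFn c).prod = (List.ofFn c').prod * g := by
  induction m with
  | zero => simp
  | succ m ih =>
    rw [List.ofFn_succ, List.ofFn_succ, List.prod_cons, List.prod_cons, ← mul_assoc, h,
      mul_assoc, ih (fun i => c i.succ) (fun i => c' i.succ) (fun i => h _), mul_assoc]

lemma ofFn_prod_mul_of {m : ℕ} (c : Fin m → A) (v w : A) (j : Fin m)
    (hv : ∀ i, i ≠ j → c i * v = v * c i) (hw : ∀ i, i ≠ j → c i * w = w * c i)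
    (hj : c j * v = w * c j) :
    (List.ofFn c).prod * v = w * (List.ofFn c).prod := by
  induction m with
  | zero => exact j.elim0
  | succ m ih =>
    rw [List.ofFn_succ, List.prod_cons]
    rcases Fin.eq_zero_or_eq_succ j with rfl | ⟨j', rfl⟩
    · have hc : Commute (List.ofFn fun i => c (Fin.succ i)).prod v := by
        apply Commute.list_prod_left
        intro x hx
        rw [List.mem_ofFn] at hx
        obtain ⟨i, rfl⟩ := hx
        exact hv _ (Fin.succ_ne_zero i)
      rw [mul_assoc, hc.eq, ← mul_assoc, hj, mul_assoc]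
    · rw [mul_assoc, ih (fun i => c i.succ) j'
        (fun i hi => hv _ (fun h => hi (Fin.succ_injective _ h)))
        (fun i hi => hw _ (fun h => hi (Fin.succ_injective _ h))) hj,
        ← mul_assoc, hw 0 (Fin.succ_ne_zero j').symm, mul_assoc]

end lists

/-- splitting a sum over `Fin n` in pairs -/
lemma sum_split {M : Type*} [AddCommMonoid M] (n : ℕ) (f : Fin n → M) :
    ∑ i, f i = ∑ j : Fin (n / 2), (f ⟨2 * j, by omega⟩ + f ⟨2 * j + 1, by omega⟩)
      + (if h : n % 2 = 1 then f ⟨n - 1, by omega⟩ else 0) := by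
  set F : ℕ → M := fun i => if h : i < n then f ⟨i, h⟩ else 0 with hF
  have h1 : ∑ i, f i = ∑ i ∈ Finset.range n, F i := by
    rw [← Fin.sum_univ_eq_sum_range F n]
    apply Finset.sum_congr rfl
    intro i _
    simp [hF]
  have h2 : ∑ j : Fin (n / 2), (f ⟨2 * j, by omega⟩ + f ⟨2 * j + 1, by omega⟩)
      = ∑ j ∈ Finset.range (n / 2), (F (2 * j) + F (2 * j + 1)) := by
    rw [← Fin.sum_univ_eq_sum_range (fun j => F (2 * j) + F (2 * j + 1)) (n / 2)]
    apply Finset.sum_congr rfl
    intro j _
    have e1 : 2 * (j : ℕ) < n := by omega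
    have e2 : 2 * (j : ℕ) + 1 < n := by omega
    simp [hF, e1, e2]
  have h3 : ∀ m, ∑ i ∈ Finset.range (2 * m), F i
      = ∑ j ∈ Finset.range m, (F (2 * j) + F (2 * j + 1)) := by
    intro m
    induction m with
    | zero => simp
    | succ m ih =>
      rw [show 2 * (m + 1) = 2 * m + 1 + 1 by ring, Finset.sum_range_succ,
        Finset.sum_range_succ, ih, Finset.sum_range_succ, add_assoc]
  rw [h1, h2, ← h3]
  by_cases h : n % 2 = 1
  · have hn : n = 2 * (n / 2) + 1 := by omega
    have e1 : 2 * (n / 2) < n := by omega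
    have e2 : F (2 * (n / 2)) = f ⟨n - 1, by omega⟩ := by
      simp only [hF, e1, dif_pos]
      congr 1
      apply Fin.ext
      simp only
      omega
    rw [dif_pos h]
    calc ∑ i ∈ Finset.range n, F i = ∑ i ∈ Finset.range (2 * (n / 2) + 1), F i := by rw [← hn]
      _ = _ := by rw [Finset.sum_range_succ, e2]
  · have hn : n = 2 * (n / 2) := by omega
    rw [dif_neg h, add_zero, ← hn]

section factors

variable {n : ℕ}

lemma gen_sq (i : Fin n) : gen n i * gen n i = -1 := by
  apply io_sq_unit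
  simp

lemma gen_anti {i j : Fin n} (h : i ≠ j) : gen n i * gen n j = -(gen n j * gen n i) := by
  apply io_anti
  rw [EuclideanSpace.inner_single_left]
  simp [h]

lemma normalForm_eq (θ : Fin (n / 2) → ℝ) :
    normalForm n θ = (List.ofFn (fac θ)).prod := rfl

lemma pair_mul_gen {a b i : Fin n} (ha : a ≠ i) (hb : b ≠ i) :
    gen n a * gen n b * gen n i = gen n i * (gen n a * gen n b) := by
  rw [mul_assoc, gen_anti hb, mul_neg, ← mul_assoc, gen_anti ha]
  simp [mul_assoc]

lemma fac_mul_gen {θ : Fin (n / 2) → ℝ} {j : Fin (n / 2)} {i : Fin n}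
    (h1 : (i : ℕ) ≠ 2 * j) (h2 : (i : ℕ) ≠ 2 * j + 1) :
    fac θ j * gen n i = gen n i * fac θ j := by
  have e1 : (⟨2 * j, by omega⟩ : Fin n) ≠ i := fun h => h1 (by rw [← h])
  have e2 : (⟨2 * j + 1, by omega⟩ : Fin n) ≠ i := fun h => h2 (by rw [← h])
  rw [fac, add_mul, mul_add, Algebra.commutes, smul_mul_assoc, pair_mul_gen e1 e2,
    mul_smul_comm]

end factors

/-- Rotation computation in an abstract algebra. -/
lemma rot_even {A : Type*} [Ring A] [Algebra ℝ A] {e e' : A} (he : e * e = -1)
    (he' : e' * e' = -1) (hee : e * e' = -(e' * e)) (l m : ℝ) (h : l ^ 2 + m ^ 2 = 1) :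
    (algebraMap ℝ A l + m • (e * e')) * e
      = ((l ^ 2 - m ^ 2) • e + (2 * l * m) • e') * (algebraMap ℝ A l + m • (e * e')) := by
  have h1 : e * e' * e = e' := by
    rw [hee, neg_mul, mul_assoc, he]; simp
  have h2 : e * (e * e') = -e' := by rw [← mul_assoc, he]; simp
  have h3 : e' * (e * e') = e := by
    rw [← mul_assoc, ← neg_neg (e' * e), ← hee, neg_mul, mul_assoc, he']; simp
  simp only [Algebra.algebraMap_eq_smul_one, add_mul, mul_add, smul_mul_assoc, mul_smul_comm,
    one_mul, mul_one, h1, h2, h3, smul_smul, smul_neg]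
  have e1 : l = l * (l ^ 2 - m ^ 2) + m * (2 * l * m) := by
    have : l * (l ^ 2 + m ^ 2) = l := by rw [h, mul_one]
    linear_combination -this
  have e2 : m = l * (2 * l * m) - m * (l ^ 2 - m ^ 2) := by
    have : m * (l ^ 2 + m ^ 2) = m := by rw [h, mul_one]
    linear_combination -this
  calc l • e + m • e'
      = (l * (l ^ 2 - m ^ 2) + m * (2 * l * m)) • e
        + (l * (2 * l * m) - m * (l ^ 2 - m ^ 2)) • e' := by rw [← e1, ← e2]
    _ = _ := by module

lemma rot_odd {A : Type*} [Ring A] [Algebra ℝ A] {e e' : A} (he : e * e = -1)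
    (he' : e' * e' = -1) (hee : e * e' = -(e' * e)) (l m : ℝ) (h : l ^ 2 + m ^ 2 = 1) :
    (algebraMap ℝ A l + m • (e * e')) * e'
      = ((l ^ 2 - m ^ 2) • e' - (2 * l * m) • e) * (algebraMap ℝ A l + m • (e * e')) := by
  have h1 : e * e' * e' = -e := by
    rw [mul_assoc, he']; simp
  have h2 : e * (e * e') = -e' := by rw [← mul_assoc, he]; simp
  have h3 : e' * (e * e') = e := by
    rw [← mul_assoc, ← neg_neg (e' * e), ← hee, neg_mul, mul_assoc, he']; simp
  simp only [Algebra.algebraMap_eq_smul_one, add_mul, sub_mul, mul_add, smul_mul_assoc,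
    mul_smul_comm, one_mul, mul_one, h1, h2, h3, smul_smul, smul_neg]
  have e1 : l = l * (l ^ 2 - m ^ 2) + m * (2 * l * m) := by
    have : l * (l ^ 2 + m ^ 2) = l := by rw [h, mul_one]
    linear_combination -this
  have e2 : m = l * (2 * l * m) - m * (l ^ 2 - m ^ 2) := by
    have : m * (l ^ 2 + m ^ 2) = m := by rw [h, mul_one]
    linear_combination -this
  calc l • e' + -(m • e)
      = (l * (l ^ 2 - m ^ 2) + m * (2 * l * m)) • e'
        - (l * (2 * l * m) - m * (l ^ 2 - m ^ 2)) • e := by rw [← e1, ← e2]; abel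
    _ = _ := by module

end Pool.Agent.Q8.SPN
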